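import Pool.Agent.Lib_helper59.DH.M8
import Pool.Agent.Lib_helper26.SD.DichS

/-!
# DHR: the main theorem with `a = 1`, and the dichotomy for every improvement
-/

set_option autoImplicit false

namespace Pool.Agent.DH

open Finset Pool.Agent.FGP Pool.Agent.SZ Pool.Agent.SD Filter

/-- a zero of conductor above `X ^ δ` has no influence -/
theorem W_zero {X δ Y : ℝ} (hX : 1 < X) (hY : X ^ (1 - δ) ≤ Y) {q Q : ℕ}
    (hq : X ^ (1 * δ) < q) (hQ : Y < Q) : max 0 (Real.log (X / (q * Q))) = 0 := by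
  have hX0 : 0 < X := by linarith
  apply max_eq_left
  have h1 : 0 < X ^ (1 * δ) := Real.rpow_pos_of_pos hX0 _
  have h2 : 0 < X ^ (1 - δ) := Real.rpow_pos_of_pos hX0 _
  have hq0 : (0 : ℝ) < q := by linarith
  have hQ0 : (0 : ℝ) < Q := by linarith
  have h3 : X ≤ q * Q := by
    calc X = X ^ (1 * δ) * X ^ (1 - δ) := by
          rw [← Real.rpow_add hX0]
          ring_nf
          exact (Real.rpow_one X).symm
      _ ≤ q * Q := mul_le_mul hq.le (by linarith) h2.le hq0.le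
  apply Real.log_nonpos (by positivity)
  rw [div_le_one (by positivity)]
  exact h3

/-- a zero away from `1` has little influence -/
theorem W_small {X δ b β : ℝ} (hX : 1 < X) (hδ : 0 < δ) {q Q : ℕ} (hq : 1 ≤ q)
    (hQ : 1 ≤ Q) (hβ : β ≤ 1 - b / (δ * Real.log X)) :
    X ^ (2 * β - 1) * max 0 (Real.log (X / (q * Q))) ≤
      Real.exp (-(2 * b / δ)) * (X * Real.log X) := by
  have hX0 : 0 < X := by linarith
  have hlX : 0 < Real.log X := Real.log_pos hX
  have hqR : (1 : ℝ) ≤ q := by exact_mod_cast hq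
  have hQR : (1 : ℝ) ≤ Q := by exact_mod_cast hQ
  have h6 : X ^ (2 * β - 1) ≤ X * Real.exp (-(2 * b / δ)) := by
    have h7 : X ^ (2 * β - 1) ≤ X ^ (1 - 2 * (b / (δ * Real.log X))) :=
      Real.rpow_le_rpow_of_exponent_le hX.le (by linarith)
    refine h7.trans (le_of_eq ?_)
    rw [Real.rpow_sub hX0, Real.rpow_one, Real.rpow_def_of_pos hX0, div_eq_mul_inv,
      ← Real.exp_neg]
    congr 2
    field_simp
  have h8 : max 0 (Real.log (X / (q * Q))) ≤ Real.log X := by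
    refine max_le hlX.le ?_
    apply Real.log_le_log (by positivity)
    apply div_le_self hX0.le
    nlinarith
  calc X ^ (2 * β - 1) * max 0 (Real.log (X / (q * Q))) ≤
      (X * Real.exp (-(2 * b / δ))) * Real.log X :=
        mul_le_mul h6 h8 (le_max_left _ _) (by positivity)
    _ = _ := by ring

/-- the main theorem -/
def MT (b cA C : ℝ) : Prop := ∀ c : ℝ, 0 < c → c ≤ cA → ∀ δ : ℝ, 0 < δ → δ ≤ cA →
  (∀ᶠ X : ℝ in atTop, ∀ Y : ℝ, X ^ (1 - δ) ≤ Y → Y ≤ X / C →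
    (∀ (q : ℕ) (χ : DirichletCharacter ℂ q) (β : ℝ), ¬ IsExc 1 b δ X q χ β) →
      ∑ Q ∈ QR Y, |V X Q - X * Real.log Q| ≤
        C * Real.exp (-(c / δ)) * (X * Real.log X) * (QR Y).card) ∧
  (∀ ε : ℝ, 0 < ε → ∀ᶠ X : ℝ in atTop, ∀ Y : ℝ, X ^ (1 - δ) ≤ Y → Y ≤ X / C →
    ∀ (q : ℕ) (χ : DirichletCharacter ℂ q) (β : ℝ), IsExc 1 b δ X q χ β →
      ∑ Q ∈ QR Y, |V X Q - (X * Real.log Q - X ^ (2 * β - 1) * max 0 (Real.log (X / (q * Q))))| ≤
        (C * min (Real.exp (-(c / δ))) (Real.sqrt ((1 - β) * Real.log X)) + ε) *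
          (X * Real.log X) * (QR Y).card)

theorem merge (hA : AA17) (hX : AAX17) : ∃ b cA C : ℝ, 0 < b ∧ 0 < cA ∧ 0 < C ∧ MT b cA C := by
  obtain ⟨b₁, c₁, C₁, hb₁, hc₁, hC₁, hA⟩ := hA
  obtain ⟨b₂, c₂, C₂, hb₂, hc₂, -, hC₂, hX⟩ := hX
  obtain ⟨Y₀, hY₀, hcnt⟩ := cnt
  set b : ℝ := min b₁ b₂ with hb
  have hb0 : 0 < b := lt_min hb₁ hb₂
  have hbb1 : b ≤ b₁ := min_le_left _ _
  have hbb2 : b ≤ b₂ := min_le_right _ _
  set cA : ℝ := min (min c₁ c₂) (min (1 / 2) (2 * b)) with hcA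
  have hcA0 : 0 < cA := lt_min (lt_min hc₁ hc₂) (lt_min (by norm_num) (by positivity))
  have hcA1 : cA ≤ c₁ := (min_le_left _ _).trans (min_le_left _ _)
  have hcA2 : cA ≤ c₂ := (min_le_left _ _).trans (min_le_right _ _)
  have hcA3 : cA ≤ 1 / 2 := (min_le_right _ _).trans (min_le_left _ _)
  have hcA4 : cA ≤ 2 * b := (min_le_right _ _).trans (min_le_right _ _)
  set C : ℝ := 2 * C₁ + 2 * C₂ + 1 with hC
  have hC0 : 0 < C := by positivity
  have hCC1 : C₁ ≤ C := by linarith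
  have hCC2 : C₂ ≤ C := by linarith
  refine ⟨b, cA, C, hb0, hcA0, hC0, fun c hc hcc δ hδ hδc => ?_⟩
  have hδ2 : δ ≤ 1 / 2 := hδc.trans hcA3
  obtain ⟨X₁, hX₁⟩ := hA δ hδ (hδc.trans hcA1)
  have hE : Real.exp (-(c₁ / δ)) ≤ Real.exp (-(c / δ)) := by
    apply Real.exp_le_exp.2
    apply neg_le_neg
    exact div_le_div_of_nonneg_right (hcc.trans hcA1) hδ.le
  have hE0 := (Real.exp_pos (-(c / δ))).le
  -- the facts for large `X`
  have hbase : ∀ᶠ X : ℝ in atTop, 1 < X ∧ Y₀ ≤ X ^ (1 / 2 : ℝ) ∧ X₁ ≤ X :=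
    (eventually_gt_atTop (1 : ℝ)).and
      (((tendsto_rpow_atTop (show (0 : ℝ) < 1 / 2 by norm_num)).eventually_ge_atTop Y₀).and
        (eventually_ge_atTop X₁))
  have hYY : ∀ X Y : ℝ, 1 < X → Y₀ ≤ X ^ (1 / 2 : ℝ) → X ^ (1 - δ) ≤ Y →
      Y₀ ≤ Y ∧ Y / Real.log Y ≤ 2 * ((QR Y).card : ℝ) := by
    intro X Y h1 h2 h3
    have h4 : Y₀ ≤ Y := by
      refine h2.trans (le_trans ?_ h3)
      exact Real.rpow_le_rpow_of_exponent_le h1.le (by linarith)
    obtain ⟨k1, -⟩ := hcnt Y h4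
    exact ⟨h4, by linarith⟩
  have hexc1 : ∀ (X : ℝ), 1 < X → ∀ (q : ℕ) (χ : DirichletCharacter ℂ q) (β : ℝ),
      IsExc 1 b δ X q χ β → IsExc 17 b₁ δ X q χ β ∧ IsExc 17 b₂ δ X q χ β := by
    intro X hX1 q χ β hexc
    obtain ⟨m1, m2, m3, m4⟩ := hexc
    have hlX : 0 < Real.log X := Real.log_pos hX1
    have h1 : (q : ℝ) ≤ X ^ (17 * δ) := by
      refine m1.trans (Real.rpow_le_rpow_of_exponent_le hX1.le ?_)
      linarith
    have h2 : b / (δ * Real.log X) ≤ b₁ / (δ * Real.log X) :=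
      div_le_div_of_nonneg_right hbb1 (by positivity)
    have h3 : b / (δ * Real.log X) ≤ b₂ / (δ * Real.log X) :=
      div_le_div_of_nonneg_right hbb2 (by positivity)
    exact ⟨⟨h1, m2, m3, by linarith⟩, ⟨h1, m2, m3, by linarith⟩⟩
  -- the bound with `exp`
  have hfin : ∀ X Y : ℝ, 1 < X → Y₀ ≤ X ^ (1 / 2 : ℝ) → X ^ (1 - δ) ≤ Y → ∀ S : ℝ,
      S ≤ C₁ * Real.exp (-(c₁ / δ)) * (X * Real.log X) * (Y / Real.log Y) →
      S ≤ 2 * C₁ * Real.exp (-(c / δ)) * (X * Real.log X) * (QR Y).card := by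
    intro X Y h1 h2 h3 S hS
    obtain ⟨k1, k2⟩ := hYY X Y h1 h2 h3
    have hlX : 0 < Real.log X := Real.log_pos h1
    have hlY : 0 < Real.log Y := Real.log_pos (by linarith)
    have hZ : 0 ≤ Y / Real.log Y := div_nonneg (by linarith) hlY.le
    refine hS.trans ?_
    calc C₁ * Real.exp (-(c₁ / δ)) * (X * Real.log X) * (Y / Real.log Y) ≤
        C₁ * Real.exp (-(c / δ)) * (X * Real.log X) * (2 * (QR Y).card) := by gcongr
      _ = _ := by ring
  constructor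
  · filter_upwards [hbase] with X hXb
    obtain ⟨hX1, hX2, hX3⟩ := hXb
    intro Y hY1 hY2 hno
    have hX0 : 0 < X := by linarith
    have hlX : 0 < Real.log X := Real.log_pos hX1
    have hYC : Y ≤ X / C₁ := hY2.trans (div_le_div_of_nonneg_left hX0.le hC₁ hCC1)
    obtain ⟨k1, k2⟩ := hYY X Y hX1 hX2 hY1
    have h5 : 0 ≤ (X * Real.log X) * ((QR Y).card : ℝ) := by positivity
    by_cases hex : ∀ (q : ℕ) (χ : DirichletCharacter ℂ q) (β : ℝ), ¬ IsExc 17 b₁ δ X q χ β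
    · have h6 := hX₁ X hX3 (fun _ => 0) (Or.inl ⟨fun _ => rfl, hex⟩) Y hY1 hYC
      simp only [add_zero] at h6
      refine (hfin X Y hX1 hX2 hY1 _ h6).trans ?_
      have h7 : 2 * C₁ * Real.exp (-(c / δ)) ≤ C * Real.exp (-(c / δ)) :=
        mul_le_mul_of_nonneg_right (by linarith) hE0
      calc 2 * C₁ * Real.exp (-(c / δ)) * (X * Real.log X) * (QR Y).card =
          2 * C₁ * Real.exp (-(c / δ)) * ((X * Real.log X) * (QR Y).card) := by ring
        _ ≤ C * Real.exp (-(c / δ)) * ((X * Real.log X) * (QR Y).card) :=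
            mul_le_mul_of_nonneg_right h7 h5
        _ = _ := by ring
    · push Not at hex
      obtain ⟨q, χ, β, hexc⟩ := hex
      have h6 := hX₁ X hX3 (fun Q => X ^ (2 * β - 1) * max 0 (Real.log (X / (q * Q))))
        (Or.inr ⟨q, χ, β, hexc, fun _ => rfl⟩) Y hY1 hYC
      have h7 := hfin X Y hX1 hX2 hY1 _ h6
      have hW : ∀ Q ∈ QR Y, 0 ≤ X ^ (2 * β - 1) * max 0 (Real.log (X / (q * Q))) ∧
          X ^ (2 * β - 1) * max 0 (Real.log (X / (q * Q))) ≤
            Real.exp (-(c / δ)) * (X * Real.log X) := by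
        intro Q hQ
        refine ⟨mul_nonneg (Real.rpow_nonneg hX0.le _) (le_max_left _ _), ?_⟩
        have hQ1 := mem_filter.1 hQ
        have hQ2 := (mem_Icc.1 hQ1.1).1
        rcases le_or_gt (q : ℝ) (X ^ (1 * δ)) with hq | hq
        · have hβ : β ≤ 1 - b / (δ * Real.log X) := by
            by_contra hcon
            push Not at hcon
            exact hno q χ β ⟨hq, hexc.2.1, hexc.2.2.1, hcon⟩
          refine (W_small hX1 hδ hexc.2.1.2.2 hQ2 hβ).trans ?_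
          apply mul_le_mul_of_nonneg_right _ (by positivity)
          apply Real.exp_le_exp.2
          apply neg_le_neg
          exact div_le_div_of_nonneg_right (hcc.trans hcA4) hδ.le
        · rw [W_zero hX1 hY1 hq hQ1.2.2, mul_zero]
          positivity
      calc ∑ Q ∈ QR Y, |V X Q - X * Real.log Q| ≤
          ∑ Q ∈ QR Y, (|V X Q - X * Real.log Q +
            X ^ (2 * β - 1) * max 0 (Real.log (X / (q * Q)))| +
              Real.exp (-(c / δ)) * (X * Real.log X)) := by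
            refine sum_le_sum fun Q hQ => ?_
            obtain ⟨w1, w2⟩ := hW Q hQ
            have := abs_sub_abs_le_abs_sub (V X Q - X * Real.log Q)
              (V X Q - X * Real.log Q + X ^ (2 * β - 1) * max 0 (Real.log (X / (q * Q))))
            have w4 : V X Q - X * Real.log Q -
              (V X Q - X * Real.log Q + X ^ (2 * β - 1) * max 0 (Real.log (X / (q * Q)))) =
                -(X ^ (2 * β - 1) * max 0 (Real.log (X / (q * Q)))) := by ring
            rw [w4, abs_neg, abs_of_nonneg w1] at this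
            linarith
        _ = ∑ Q ∈ QR Y, |V X Q - X * Real.log Q +
            X ^ (2 * β - 1) * max 0 (Real.log (X / (q * Q)))| +
              (QR Y).card * (Real.exp (-(c / δ)) * (X * Real.log X)) := by
            rw [sum_add_distrib, sum_const, nsmul_eq_mul]
        _ ≤ 2 * C₁ * Real.exp (-(c / δ)) * (X * Real.log X) * (QR Y).card +
              (QR Y).card * (Real.exp (-(c / δ)) * (X * Real.log X)) := by linarith
        _ = ((2 * C₁ + 1) * Real.exp (-(c / δ))) * ((X * Real.log X) * (QR Y).card) := by ring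
        _ ≤ (C * Real.exp (-(c / δ))) * ((X * Real.log X) * (QR Y).card) := by
            apply mul_le_mul_of_nonneg_right _ h5
            exact mul_le_mul_of_nonneg_right (by linarith) hE0
        _ = _ := by ring
  · intro ε hε
    obtain ⟨X₂, hX₂⟩ := hX δ hδ (hδc.trans hcA2) (ε / 2) (by positivity)
    filter_upwards [hbase, eventually_ge_atTop X₂] with X hXb hX4
    obtain ⟨hX1, hX2, hX3⟩ := hXb
    intro Y hY1 hY2 q χ β hexc
    have hX0 : 0 < X := by linarith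
    have hlX : 0 < Real.log X := Real.log_pos hX1
    have hYC1 : Y ≤ X / C₁ := hY2.trans (div_le_div_of_nonneg_left hX0.le hC₁ hCC1)
    have hYC2 : Y ≤ X / C₂ := hY2.trans (div_le_div_of_nonneg_left hX0.le hC₂ hCC2)
    obtain ⟨k1, k2⟩ := hYY X Y hX1 hX2 hY1
    have h5 : 0 ≤ (X * Real.log X) * ((QR Y).card : ℝ) := by positivity
    obtain ⟨e1, e2⟩ := hexc1 X hX1 q χ β hexc
    have g1 := hX₁ X hX3 (fun Q => X ^ (2 * β - 1) * max 0 (Real.log (X / (q * Q))))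
      (Or.inr ⟨q, χ, β, e1, fun _ => rfl⟩) Y hY1 hYC1
    have g1' := hfin X Y hX1 hX2 hY1 _ g1
    have g2 := hX₂ X hX4 q χ β e2 Y hY1 hYC2
    set S : ℝ := ∑ Q ∈ QR Y, |V X Q - (X * Real.log Q -
      X ^ (2 * β - 1) * max 0 (Real.log (X / (q * Q))))| with hS
    have hSS : ∑ Q ∈ QR Y, |V X Q - X * Real.log Q +
        X ^ (2 * β - 1) * max 0 (Real.log (X / (q * Q)))| = S := by
      rw [hS]
      refine sum_congr rfl fun Q _ => ?_
      congr 1
      ring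
    rw [hSS] at g1'
    set R : ℝ := Real.sqrt ((1 - β) * Real.log X) with hR
    have hR0 : 0 ≤ R := Real.sqrt_nonneg _
    have g2' : S ≤ (2 * C₂ * R + ε) * ((X * Real.log X) * (QR Y).card) := by
      refine g2.trans ?_
      calc (C₂ * R + ε / 2) * (X * Real.log X) * (Y / Real.log Y) ≤
          (C₂ * R + ε / 2) * (X * Real.log X) * (2 * (QR Y).card) := by gcongr
        _ = _ := by ring
    rcases le_total (Real.exp (-(c / δ))) R with h | h
    · rw [min_eq_left h]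
      refine g1'.trans ?_
      calc 2 * C₁ * Real.exp (-(c / δ)) * (X * Real.log X) * (QR Y).card =
          (2 * C₁ * Real.exp (-(c / δ))) * ((X * Real.log X) * (QR Y).card) := by ring
        _ ≤ (C * Real.exp (-(c / δ)) + ε) * ((X * Real.log X) * (QR Y).card) := by
            apply mul_le_mul_of_nonneg_right _ h5
            have : 2 * C₁ * Real.exp (-(c / δ)) ≤ C * Real.exp (-(c / δ)) :=
              mul_le_mul_of_nonneg_right (by linarith) hE0
            linarith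
        _ = _ := by ring
    · rw [min_eq_right h]
      refine g2'.trans ?_
      calc (2 * C₂ * R + ε) * ((X * Real.log X) * (QR Y).card) ≤
          (C * R + ε) * ((X * Real.log X) * (QR Y).card) := by
            apply mul_le_mul_of_nonneg_right _ h5
            have : 2 * C₂ * R ≤ C * R := mul_le_mul_of_nonneg_right (by linarith) hR0
            linarith
        _ = _ := by ring

/-- every improvement of the known lower bound, for one `Y` -/
def CCe (ε C δ : ℝ) : Prop := ∀ᶠ X : ℝ in atTop, ∃ Y : ℝ, X ^ (1 - δ) ≤ Y ∧ Y ≤ X / C ∧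
  ε * (QR Y).card ≤ (((QR Y).filter (fun Q : ℕ =>
    X * (2 * Real.log Q - Real.log X) + ε * (X * Real.log X) ≤ FGP.GV X Q)).card : ℝ)

/-- the variance is minimal in mean over `(Y, 2Y]`, for every `Y` -/
def DDe (ε C δ : ℝ) : Prop := ∃ᶠ X : ℝ in atTop, ∀ Y : ℝ, X ^ (1 - δ) ≤ Y → Y ≤ X / C →
  ∑ Q ∈ QR Y, |FGP.GV X Q - X * (2 * Real.log Q - Real.log X)| ≤
    ε * (X * Real.log X) * (QR Y).card

/-- `DDe` contradicts `CCe` -/
theorem dde_cce {ε C δ : ℝ} (hε : 0 < ε) (hδ1 : δ ≤ 1 / 2)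
    (hD : DDe (ε ^ 2 / 2) C δ) : ¬ CCe ε C δ := by
  intro hCC
  obtain ⟨Y₀, hY₀, hcnt⟩ := cnt
  have hev := ((hD.and_eventually hCC).and_eventually ((eventually_gt_atTop (1 : ℝ)).and
    ((tendsto_rpow_atTop (show (0 : ℝ) < 1 / 2 by norm_num)).eventually_ge_atTop Y₀))).exists
  obtain ⟨X, ⟨h1, Y, hY1, hY2, h2⟩, h3, h4⟩ := hev
  have h5 := h1 Y hY1 hY2
  have hX0 : 0 < X := by linarith
  have hlX : 0 < Real.log X := Real.log_pos h3
  have hYY : Y₀ ≤ Y := by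
    refine h4.trans (le_trans ?_ hY1)
    exact Real.rpow_le_rpow_of_exponent_le h3.le (by linarith)
  have hcard : 0 < ((QR Y).card : ℝ) := by
    obtain ⟨k1, -⟩ := hcnt Y hYY
    have hlY : 0 < Real.log Y := Real.log_pos (by linarith)
    have : 0 < Y / Real.log Y := div_pos (by linarith) hlY
    linarith
  set F := (QR Y).filter (fun Q : ℕ => X * (2 * Real.log Q - Real.log X) +
    ε * (X * Real.log X) ≤ FGP.GV X Q) with hF
  have h6 : (F.card : ℝ) * (ε * (X * Real.log X)) ≤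
      ∑ Q ∈ QR Y, |FGP.GV X Q - X * (2 * Real.log Q - Real.log X)| := by
    calc (F.card : ℝ) * (ε * (X * Real.log X)) = ∑ Q ∈ F, ε * (X * Real.log X) := by
          rw [sum_const, nsmul_eq_mul]
      _ ≤ ∑ Q ∈ F, |FGP.GV X Q - X * (2 * Real.log Q - Real.log X)| := by
          refine sum_le_sum fun Q hQ => ?_
          have := (mem_filter.1 hQ).2
          exact (by linarith : ε * (X * Real.log X) ≤
            FGP.GV X Q - X * (2 * Real.log Q - Real.log X)).trans (le_abs_self _)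
      _ ≤ _ := sum_le_sum_of_subset_of_nonneg (filter_subset _ _) fun _ _ _ => abs_nonneg _
  have h7 : ε * ((QR Y).card : ℝ) * (ε * (X * Real.log X)) ≤
      ε ^ 2 / 2 * (X * Real.log X) * (QR Y).card := by
    refine le_trans ?_ (h6.trans h5)
    exact mul_le_mul_of_nonneg_right h2 (by positivity)
  have h9 : 0 < ε ^ 2 * ((X * Real.log X) * ((QR Y).card : ℝ)) := by positivity
  nlinarith

/-- the dichotomy -/
theorem dichx (h3 : SZ.F3) (h4 : F4X) {b cA C₁ : ℝ} (hcA : 0 < cA) (hC₁ : 0 < C₁)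
    (hM : MT b cA C₁) :
    ∃ c C δ₀ : ℝ, 0 < c ∧ 0 < C ∧ 0 < δ₀ ∧ δ₀ < 1 ∧
    (∀ δ : ℝ, 0 < δ → δ ≤ δ₀ → Real.exp (-(c / δ)) ≤ δ / 100) ∧
    (∀ δ : ℝ, 0 < δ → δ ≤ δ₀ →
      (∀ᶠ X : ℝ in atTop, ∀ Y : ℝ, X ^ (1 - δ) ≤ Y → Y ≤ X / C →
        (∀ (q : ℕ) (χ : DirichletCharacter ℂ q) (β : ℝ), ¬ IsExc 1 b δ X q χ β) →
        ∑ Q ∈ QR Y, |V X Q - X * Real.log Q| ≤
          Real.exp (-(c / δ)) * (X * Real.log X) * (QR Y).card) ∧
      (∀ ε : ℝ, 0 < ε → ∀ᶠ X : ℝ in atTop, ∀ Y : ℝ, X ^ (1 - δ) ≤ Y → Y ≤ X / C →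
        ∀ (q : ℕ) (χ : DirichletCharacter ℂ q) (β : ℝ), IsExc 1 b δ X q χ β →
        ∑ Q ∈ QR Y, |V X Q -
            (X * Real.log Q - X ^ (2 * β - 1) * max 0 (Real.log (X / (q * Q))))| ≤
          (min (Real.exp (-(c / δ))) (C * Real.sqrt ((1 - β) * Real.log X)) + ε) *
            (X * Real.log X) * (QR Y).card)) ∧
    ((∃ c₀ : ℝ, 0 < c₀ ∧ NS c₀) ↔ ∃ k : ℝ, 0 < k ∧ BBs k C) ∧
    ((∃ c₀ : ℝ, 0 < c₀ ∧ NS c₀) ↔
      ∃ δ : ℝ, 0 < δ ∧ δ ≤ δ₀ ∧ ∃ ε : ℝ, 0 < ε ∧ CCe ε C δ) ∧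
    ((¬ ∃ c₀ : ℝ, 0 < c₀ ∧ NS c₀) → ∀ δ : ℝ, 0 < δ → δ ≤ δ₀ → ∀ ε : ℝ, 0 < ε → DDe ε C δ) := by
  obtain ⟨c', C₂, hc', hc'1, hC₂, hD⟩ := h4
  set C : ℝ := max (C₁ + 1) C₂ with hC
  have hC0 : 0 < C := lt_max_of_lt_left (by linarith)
  have hCC₁ : C₁ + 1 ≤ C := le_max_left _ _
  have hCC₂ : C₂ ≤ C := le_max_right _ _
  set c : ℝ := cA / 2 with hc
  have hc0 : 0 < c := by positivity
  set δ₀ : ℝ := min (min c' (min cA (c / C))) (min (1 / 2) (c ^ 2 / 200)) with hδ₀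
  have hδ₀0 : 0 < δ₀ := lt_min (lt_min hc' (lt_min hcA (by positivity)))
    (lt_min (by norm_num) (by positivity))
  have hδ₀1 : δ₀ ≤ c' := (min_le_left _ _).trans (min_le_left _ _)
  have hδ₀2 : δ₀ ≤ cA := (min_le_left _ _).trans ((min_le_right _ _).trans (min_le_left _ _))
  have hδ₀5 : δ₀ ≤ c / C := (min_le_left _ _).trans ((min_le_right _ _).trans (min_le_right _ _))
  have hδ₀3 : δ₀ ≤ 1 / 2 := (min_le_right _ _).trans (min_le_left _ _)
  have hδ₀4 : δ₀ ≤ c ^ 2 / 200 := (min_le_right _ _).trans (min_le_right _ _)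
  have hDs : (¬ ∃ c₀ : ℝ, 0 < c₀ ∧ NS c₀) → ∀ δ : ℝ, 0 < δ → δ ≤ δ₀ → ∀ ε : ℝ, 0 < ε →
      DDe ε C δ := by
    intro hn δ hδ hδδ ε hε
    unfold DDe
    rw [frequently_atTop]
    intro X₀
    obtain ⟨X, hX, hXY⟩ := hD hn δ hδ (hδδ.trans hδ₀1) ε hε (max X₀ 1)
    refine ⟨X, (le_max_left _ _).trans hX, fun Y hY1 hY2 => hXY Y hY1 (hY2.trans ?_)⟩
    have hX1 : 1 ≤ X := (le_max_right _ _).trans hX
    exact div_le_div_of_nonneg_left (by linarith) hC₂ hCC₂
  have key : ∀ δ : ℝ, 0 < δ → δ ≤ δ₀ → ∀ ε : ℝ, 0 < ε → CCe ε C δ → ∃ c₀ : ℝ, 0 < c₀ ∧ NS c₀ := by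
    intro δ hδ hδδ ε hε hC
    by_contra hn
    exact dde_cce hε (by linarith) (hDs hn δ hδ hδδ (ε ^ 2 / 2) (by positivity)) hC
  have key2 : ∀ k : ℝ, 0 < k → BBs k C →
      ∃ δ : ℝ, 0 < δ ∧ δ ≤ δ₀ ∧ ∃ ε : ℝ, 0 < ε ∧ CCe ε C δ := by
    intro k hk hB
    obtain ⟨k', hk', hB'⟩ := fin_bbe hk (bbe_of_bbs hC0 hB)
    obtain ⟨δ₁, hδ₁, hC⟩ := h3 1 k' one_pos hk' hB'
    have hm : 0 < min δ₀ δ₁ := lt_min hδ₀0 hδ₁
    exact ⟨min δ₀ δ₁, hm, min_le_left _ _, Real.exp (-(1 / min δ₀ δ₁)), Real.exp_pos _,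
      ccs_of_cc hm hC0 (hC _ hm (min_le_right _ _))⟩
  -- the main theorem with the constant `C`
  have hM1 : ∀ δ : ℝ, 0 < δ → δ ≤ δ₀ →
      (∀ᶠ X : ℝ in atTop, ∀ Y : ℝ, X ^ (1 - δ) ≤ Y → Y ≤ X / C →
        (∀ (q : ℕ) (χ : DirichletCharacter ℂ q) (β : ℝ), ¬ IsExc 1 b δ X q χ β) →
        ∑ Q ∈ QR Y, |V X Q - X * Real.log Q| ≤
          Real.exp (-(c / δ)) * (X * Real.log X) * (QR Y).card) ∧
      (∀ ε : ℝ, 0 < ε → ∀ᶠ X : ℝ in atTop, ∀ Y : ℝ, X ^ (1 - δ) ≤ Y → Y ≤ X / C →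
        ∀ (q : ℕ) (χ : DirichletCharacter ℂ q) (β : ℝ), IsExc 1 b δ X q χ β →
        ∑ Q ∈ QR Y, |V X Q -
            (X * Real.log Q - X ^ (2 * β - 1) * max 0 (Real.log (X / (q * Q))))| ≤
          (min (Real.exp (-(c / δ))) (C * Real.sqrt ((1 - β) * Real.log X)) + ε) *
            (X * Real.log X) * (QR Y).card) := by
    intro δ hδ hδ0
    have hδA : δ ≤ cA := hδ0.trans hδ₀2
    obtain ⟨g1, g2⟩ := hM cA hcA le_rfl δ hδ hδA
    have hCE : C * Real.exp (-(cA / δ)) ≤ Real.exp (-(c / δ)) := by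
      have h6 : C ≤ Real.exp (c / δ) := by
        have h7 : C ≤ c / δ := by
          have h9 : δ ≤ c / C := hδ0.trans hδ₀5
          rw [le_div_iff₀ hC0] at h9
          rw [le_div_iff₀ hδ]
          linarith
        have h8 := Real.add_one_le_exp (c / δ)
        linarith
      calc C * Real.exp (-(cA / δ)) ≤ Real.exp (c / δ) * Real.exp (-(cA / δ)) :=
            mul_le_mul_of_nonneg_right h6 (Real.exp_pos _).le
        _ = Real.exp (-(c / δ)) := by
            rw [← Real.exp_add]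
            congr 1
            rw [hc]
            field_simp
            ring
    have hEA0 := (Real.exp_pos (-(cA / δ))).le
    have hCE1 : C₁ * Real.exp (-(cA / δ)) ≤ Real.exp (-(c / δ)) :=
      (mul_le_mul_of_nonneg_right (by linarith) hEA0).trans hCE
    constructor
    · filter_upwards [g1, eventually_gt_atTop (1 : ℝ)] with X hX hX1
      intro Y hY1 hY2 hno
      have hlX : 0 < Real.log X := Real.log_pos hX1
      refine (hX Y hY1 (hY2.trans (div_le_div_of_nonneg_left (by linarith) hC₁ (by linarith)))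
        hno).trans ?_
      gcongr
    · intro ε hε
      filter_upwards [g2 ε hε, eventually_gt_atTop (1 : ℝ)] with X hX hX1
      intro Y hY1 hY2 q χ β hexc
      have hlX : 0 < Real.log X := Real.log_pos hX1
      refine (hX Y hY1 (hY2.trans (div_le_div_of_nonneg_left (by linarith) hC₁ (by linarith)))
        q χ β hexc).trans ?_
      have h6 : C₁ * min (Real.exp (-(cA / δ))) (Real.sqrt ((1 - β) * Real.log X)) ≤
          min (Real.exp (-(c / δ))) (C * Real.sqrt ((1 - β) * Real.log X)) := by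
        apply le_min
        · exact (mul_le_mul_of_nonneg_left (min_le_left _ _) hC₁.le).trans hCE1
        · exact (mul_le_mul_of_nonneg_left (min_le_right _ _) hC₁.le).trans
            (mul_le_mul_of_nonneg_right (by linarith) (Real.sqrt_nonneg _))
      gcongr
  -- the old form
  have hM2 : ∀ c₃ : ℝ, 0 < c₃ → c₃ ≤ cA →
    ∀ δ : ℝ, 0 < δ → δ ≤ cA → ∀ᶠ X : ℝ in atTop, ∀ Y : ℝ, X ^ (1 - δ) ≤ Y → Y ≤ X / C →
    ((∀ (q : ℕ) (χ : DirichletCharacter ℂ q) (β : ℝ), ¬ IsExc 1 b δ X q χ β) →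
      ∑ Q ∈ QR Y, |V X Q - X * Real.log Q| ≤
        C * Real.exp (-(c₃ / δ)) * (X * Real.log X) * (QR Y).card) ∧
    (∀ (q : ℕ) (χ : DirichletCharacter ℂ q) (β : ℝ), IsExc 1 b δ X q χ β →
      ∑ Q ∈ QR Y, |V X Q - (X * Real.log Q - X ^ (2 * β - 1) * max 0 (Real.log (X / (q * Q))))| ≤
        C * Real.exp (-(c₃ / δ)) * (X * Real.log X) * (QR Y).card) := by
    intro c₃ hc₃ hc₃A δ hδ hδA
    obtain ⟨g1, g2⟩ := hM c₃ hc₃ hc₃A δ hδ hδA
    filter_upwards [g1, g2 (Real.exp (-(c₃ / δ))) (Real.exp_pos _), eventually_gt_atTop (1 : ℝ)]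
      with X hX hX' hX1
    intro Y hY1 hY2
    have hlX : 0 < Real.log X := Real.log_pos hX1
    have hY3 : Y ≤ X / C₁ :=
      hY2.trans (div_le_div_of_nonneg_left (by linarith) hC₁ (by linarith))
    constructor
    · intro hno
      refine (hX Y hY1 hY3 hno).trans ?_
      have : C₁ ≤ C := by linarith
      gcongr
    · intro q χ β hexc
      refine (hX' Y hY1 hY3 q χ β hexc).trans ?_
      have h5 : 0 ≤ (X * Real.log X) * ((QR Y).card : ℝ) := by positivity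
      have hE0 := (Real.exp_pos (-(c₃ / δ))).le
      have h6 : C₁ * min (Real.exp (-(c₃ / δ))) (Real.sqrt ((1 - β) * Real.log X)) +
          Real.exp (-(c₃ / δ)) ≤ C * Real.exp (-(c₃ / δ)) := by
        have h7 : C₁ * min (Real.exp (-(c₃ / δ))) (Real.sqrt ((1 - β) * Real.log X)) ≤
            C₁ * Real.exp (-(c₃ / δ)) := mul_le_mul_of_nonneg_left (min_le_left _ _) hC₁.le
        nlinarith
      calc _ = (C₁ * min (Real.exp (-(c₃ / δ))) (Real.sqrt ((1 - β) * Real.log X)) +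
          Real.exp (-(c₃ / δ))) * ((X * Real.log X) * (QR Y).card) := by ring
        _ ≤ (C * Real.exp (-(c₃ / δ))) * ((X * Real.log X) * (QR Y).card) :=
            mul_le_mul_of_nonneg_right h6 h5
        _ = _ := by ring
  have key3 : (∃ c₀ : ℝ, 0 < c₀ ∧ NS c₀) → ∃ k : ℝ, 0 < k ∧ BBs k C := by
    rintro ⟨c₀, hc₀, hN⟩
    exact ns_all one_pos hcA hC0 hM2 hc₀ hN
  refine ⟨c, C, δ₀, hc0, hC0, hδ₀0, by linarith, ?_,
    hM1, ⟨key3, ?_⟩, ⟨?_, ?_⟩, hDs⟩
  · intro δ hδ hδδ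
    have h6 : δ ≤ c ^ 2 / 200 := hδδ.trans hδ₀4
    have hx : 0 < c / δ := by positivity
    have h7 : (c / δ) ^ 2 / 2 ≤ Real.exp (c / δ) := by
      have := Real.quadratic_le_exp_of_nonneg hx.le
      linarith
    have h8 : 100 / δ ≤ Real.exp (c / δ) := by
      refine le_trans ?_ h7
      rw [div_pow, div_div, div_le_div_iff₀ hδ (by positivity)]
      nlinarith
    rw [Real.exp_neg, inv_eq_one_div, div_le_div_iff₀ (Real.exp_pos _) (by norm_num)]
    rw [div_le_iff₀ hδ] at h8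
    linarith
  · rintro ⟨k, hk, hB⟩
    obtain ⟨δ, hδ, hδδ, ε, hε, hC⟩ := key2 k hk hB
    exact key δ hδ hδδ ε hε hC
  · intro h
    obtain ⟨k, hk, hB⟩ := key3 h
    exact key2 k hk hB
  · rintro ⟨δ, hδ, hδδ, ε, hε, hC⟩
    exact key δ hδ hδδ ε hε hC

end Pool.Agent.DH
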